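import Pool.Agent.W593.IR.Stm

set_option autoImplicit false

/-! IR-CNT: counting tuples by the number of entries in `S`. -/

namespace Pool.Agent.W899.IR

open Finset Pool.Agent.W593.IR

/-- Pascal's rule for the weighted sums. -/
theorem pascal (k : ℕ) (A : ℝ) (h : ℕ → ℝ) :
    ∑ j ∈ range (k + 2), ((k + 1).choose j : ℝ) * A ^ (k + 1 - j) * h j =
      ∑ j ∈ range (k + 1), (k.choose j : ℝ) * A ^ (k - j) * h (j + 1) +
        A * ∑ j ∈ range (k + 1), (k.choose j : ℝ) * A ^ (k - j) * h j := by
  have e1 : A * ∑ j ∈ range (k + 1), (k.choose j : ℝ) * A ^ (k - j) * h j =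
      ∑ j ∈ range (k + 2), (k.choose j : ℝ) * A ^ (k + 1 - j) * h j := by
    rw [sum_range_succ _ (k + 1), Nat.choose_succ_self, Nat.cast_zero, zero_mul, zero_mul, add_zero,
      mul_sum]
    refine sum_congr rfl (fun j hj => ?_)
    rw [mem_range] at hj
    have e : k + 1 - j = (k - j) + 1 := by omega
    rw [e, pow_succ]
    ring
  rw [e1, sum_range_succ' _ (k + 1), sum_range_succ' _ (k + 1), ← add_assoc, ← sum_add_distrib]
  congr 1
  · refine sum_congr rfl (fun j _ => ?_)
    have e : k + 1 - (j + 1) = k - j := by omega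
    rw [e, Nat.choose_succ_succ, Nat.cast_add]
    ring
  · simp

open Classical in
/-- Number of tuples with sum at least `t`. -/
noncomputable def TT {W : Type} [Fintype W] (z : W → ℝ) (k : ℕ) (t : ℝ) : ℝ :=
  ∑ f : Fin k → W, if t ≤ ∑ i, z (f i) then 1 else 0

theorem TT_zero {W : Type} [Fintype W] (z : W → ℝ) (t : ℝ) :
    TT z 0 t = if t ≤ 0 then 1 else 0 := by
  classical
  unfold TT
  rw [Fintype.sum_unique]
  simp

theorem TT_succ {W : Type} [Fintype W] (z : W → ℝ) (k : ℕ) (t : ℝ) :
    TT z (k + 1) t = ∑ v, TT z k (t - z v) := by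
  classical
  unfold TT
  rw [← (Fin.consEquiv (fun _ : Fin (k + 1) => W)).sum_comp, Fintype.sum_prod_type]
  refine sum_congr rfl (fun v _ => sum_congr rfl (fun f _ => ?_))
  have e : ∑ i, z ((Fin.consEquiv (fun _ : Fin (k + 1) => W)) (v, f) i) =
      z v + ∑ i, z (f i) := by
    rw [Fin.sum_univ_succ]
    simp [Fin.consEquiv]
  simp only [e]
  refine if_congr ?_ rfl rfl
  constructor
  · intro h
    linarith
  · intro h
    linarith

theorem key {V : Type} [Fintype V] [DecidableEq V] (y : V → ℝ) (S : Finset V)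
    (hS : ∀ v, v ∉ S → y v = 0) (k : ℕ) (t : ℝ) :
    TT y k t = ∑ j ∈ range (k + 1), (k.choose j : ℝ) *
      ((Fintype.card V : ℝ) - (S.card : ℝ)) ^ (k - j) * TT (fun v : S => y v.1) j t := by
  induction k generalizing t with
  | zero =>
    rw [TT_zero, zero_add, sum_range_one, TT_zero]
    simp
  | succ k ih =>
    rw [TT_succ, pascal, ← Finset.sum_add_sum_compl S]
    congr 1
    · have e1 : ∀ j, TT (fun v : S => y v.1) (j + 1) t =
          ∑ v ∈ S, TT (fun v : S => y v.1) j (t - y v) := by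
        intro j
        rw [TT_succ]
        exact Finset.sum_coe_sort S (fun v => TT (fun v : S => y v.1) j (t - y v))
      simp only [e1, mul_sum]
      rw [sum_comm]
      refine sum_congr rfl (fun v _ => ?_)
      exact ih (t - y v)
    · have e2 : ∀ v ∈ Sᶜ, TT y k (t - y v) = TT y k t := by
        intro v hv
        rw [hS v (Finset.mem_compl.1 hv), sub_zero]
      rw [sum_congr rfl e2, sum_const, nsmul_eq_mul, Finset.card_compl,
        Nat.cast_sub (Finset.card_le_univ S), ← ih t]

theorem NG_eq {W : Type} [Fintype W] (z : W → ℝ) (k : ℕ) : (NG z k : ℝ) = TT z k 1 := by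
  classical
  unfold NG TT
  rw [Finset.sum_boole]
  congr 1
  rw [← Set.ncard_coe_finset]
  congr 1
  ext f
  simp

theorem cnt : S_CNT := by
  intro V _ _ y S k _ hS
  rw [NG_eq, key y S hS k 1]
  refine sum_congr rfl (fun j _ => ?_)
  rw [NG_eq]

end Pool.Agent.W899.IR
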